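import Mathlib

namespace Pool.Agent.Results.MP_cd0533_lc.Nonzero

theorem four {x : ℚ} (h : 0 ≤ x) : ∃ a b c d : ℚ, a ^ 2 + b ^ 2 + c ^ 2 + d ^ 2 = x := by
  obtain ⟨a, b, c, d, e⟩ := Nat.sum_four_squares (x.num.toNat * x.den)
  have h1 : (x.den : ℚ) ≠ 0 := by positivity
  have h2 : ((x.num.toNat : ℕ) : ℚ) = x * x.den := by
    rw [← Int.cast_natCast, Int.toNat_of_nonneg (Rat.num_nonneg.2 h), Rat.mul_den_eq_num]
  have h3 : (a : ℚ) ^ 2 + b ^ 2 + c ^ 2 + d ^ 2 = x * x.den * x.den := by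
    rw [← h2]
    exact_mod_cast e
  exact ⟨a / x.den, b / x.den, c / x.den, d / x.den, by field_simp; linear_combination h3⟩

theorem small {x : ℚ} (h : 0 < x) : ∃ u : ℚ, IsSquare u ∧ IsSquare (u + 2) ∧ u ≤ x := by
  have h1 : (0 : ℝ) < (min 1 x : ℚ) := by exact_mod_cast lt_min one_pos h
  obtain ⟨t, a1, a2⟩ := exists_rat_btwn (Real.sqrt_lt_sqrt zero_le_two (lt_add_of_pos_right 2 h1))
  have a3 : (1 : ℝ) < t := (Real.one_lt_sqrt_two).trans a1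
  have a4 := Real.lt_sq_of_sqrt_lt a1
  have a5 := (Real.lt_sqrt (by linarith)).1 a2
  have b3 : 1 < t := by exact_mod_cast a3
  have b4 : 2 < t ^ 2 := by exact_mod_cast a4
  have b5 : t ^ 2 < 2 + min 1 x := by exact_mod_cast a5
  refine ⟨((t ^ 2 - 2) / (2 * t)) ^ 2, .sq _, ⟨(t ^ 2 + 2) / (2 * t), by field_simp; ring⟩, ?_⟩
  rw [div_pow, div_le_iff₀ (by positivity)]
  nlinarith [min_le_left 1 x, min_le_right 1 x]

theorem pos (x : ℚ) : 0 < x ↔ ∃ u a b c d : ℚ, x = u + a + b + c + d ∧ IsSquare u ∧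
    IsSquare (u + 1 + 1) ∧ IsSquare a ∧ IsSquare b ∧ IsSquare c ∧ IsSquare d := by
  constructor
  · intro h
    obtain ⟨u, a1, a2, a3⟩ := small h
    obtain ⟨a, b, c, d, e⟩ := four (sub_nonneg.2 a3)
    exact ⟨u, _, _, _, _, by linarith, a1, by convert a2 using 1; ring, .sq a, .sq b, .sq c, .sq d⟩
  · rintro ⟨u, a, b, c, d, rfl, h1, h2, h3, h4, h5, h6⟩
    have : u ≠ 0 := by
      rintro rfl
      norm_num at h2
    have := lt_of_le_of_ne h1.nonneg this.symm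
    linarith [h3.nonneg, h4.nonneg, h5.nonneg, h6.nonneg]

theorem result (x : ℚ) : x ≠ 0 ↔ ∃ u a b c d : ℚ,
    (x = u + a + b + c + d ∨ x + u + a + b + c + d = 0) ∧ IsSquare u ∧ IsSquare (u + 1 + 1) ∧
      IsSquare a ∧ IsSquare b ∧ IsSquare c ∧ IsSquare d := by
  rw [ne_iff_lt_or_gt, or_comm, ← neg_pos, pos, pos]
  constructor
  · rintro (⟨u, a, b, c, d, h, h'⟩ | ⟨u, a, b, c, d, h, h'⟩)
    exacts [⟨u, a, b, c, d, Or.inl h, h'⟩, ⟨u, a, b, c, d, Or.inr (by linarith), h'⟩]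
  · rintro ⟨u, a, b, c, d, h | h, h'⟩
    exacts [Or.inl ⟨u, a, b, c, d, h, h'⟩, Or.inr ⟨u, a, b, c, d, by linarith, h'⟩]

end Pool.Agent.Results.MP_cd0533_lc.Nonzero
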